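import Mathlib

set_option autoImplicit false

/-!
# Turán's construction by acute triangles in the plane (MP_f1799f_co, AcuteTriangles)

For every `m` there are `3 m` points in the plane that span at least `m ^ 3 + 3 m (m choose 2)` acute triangles, the
number of edges of Turán's 3-graph.
-/

namespace Pool.Agent.T2H24.AC

open Finset
open scoped RealInnerProductSpace

/-- The triangle `p q r` is acute (its three angles are less than a right angle). -/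
def Acute (p q r : EuclideanSpace ℝ (Fin 2)) : Prop :=
  0 < ⟪q - p, r - p⟫ ∧ 0 < ⟪p - q, r - q⟫ ∧ 0 < ⟪p - r, q - r⟫

namespace Sharp

lemma acute_iff (x1 y1 x2 y2 x3 y3 : ℝ) :
    Acute !₂[x1, y1] !₂[x2, y2] !₂[x3, y3] ↔
      0 < (x2 - x1) * (x3 - x1) + (y2 - y1) * (y3 - y1) ∧
      0 < (x1 - x2) * (x3 - x2) + (y1 - y2) * (y3 - y2) ∧
      0 < (x1 - x3) * (x2 - x3) + (y1 - y3) * (y2 - y3) := by
  unfold Acute
  simp only [PiLp.inner_apply, Fin.sum_univ_two, PiLp.sub_apply, Matrix.cons_val_zero, Matrix.cons_val_one,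
    RCLike.inner_apply, conj_trivial]
  constructor
  · rintro ⟨h1, h2, h3⟩
    exact ⟨by linarith, by linarith, by linarith⟩
  · rintro ⟨h1, h2, h3⟩
    exact ⟨by linarith, by linarith, by linarith⟩

/-- `x K > - D x ^ 2 (1 + w ^ 2 / 4)` and `x K < D x ^ 2 (1 + w ^ 2 / 4)` for small `K`. -/
lemma key {D K x w : ℝ} (hD : 1 ≤ D) (hK : |K| < |x|) :
    0 < D * x ^ 2 * (1 + w ^ 2 / 4) + x * K ∧ 0 < D * x ^ 2 * (1 + w ^ 2 / 4) - x * K := by
  have hx : 0 < |x| := lt_of_le_of_lt (abs_nonneg _) hK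
  have h1 : |x * K| < x ^ 2 := by
    rw [abs_mul, ← sq_abs x]
    nlinarith
  have h2 : x ^ 2 ≤ D * x ^ 2 * (1 + w ^ 2 / 4) := by
    have h3 : 0 ≤ x ^ 2 := sq_nonneg x
    have h4 : 0 ≤ w ^ 2 := sq_nonneg w
    nlinarith [mul_nonneg h3 h4, mul_nonneg (sub_nonneg.2 hD) h3, mul_nonneg (mul_nonneg (sub_nonneg.2 hD) h3) h4]
  rw [abs_lt] at h1
  constructor <;> linarith [h1.1, h1.2]

/-- The points of the three clusters. -/
noncomputable def P (η : ℝ) : Fin 3 → ℝ → EuclideanSpace ℝ (Fin 2)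
  | 0, t => !₂[t ^ 2 / 2, t]
  | 1, t => !₂[1 - t + t ^ 2 / 2 * (η - 1), t * (η - 1) + t ^ 2 / 2]
  | 2, t => !₂[η + t - η * t ^ 2 / 2, 1 - η * t - t ^ 2 / 2]

lemma am {a b A B : ℝ} (ha : |a| ≤ A) (hb : |b| ≤ B) : |a * b| ≤ A * B := by
  rw [abs_mul]
  exact mul_le_mul ha hb (abs_nonneg _) ((abs_nonneg _).trans ha)

lemma aa {a b A B : ℝ} (ha : |a| ≤ A) (hb : |b| ≤ B) : |a + b| ≤ A + B :=
  (abs_add_le a b).trans (add_le_add ha hb)

lemma ak {a A : ℝ} (k : ℝ) (hk : 0 ≤ k) (ha : |a| ≤ A) : |k * a| ≤ k * A := by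
  rw [abs_mul, abs_of_nonneg hk]
  exact mul_le_mul_of_nonneg_left ha hk

lemma an {a A : ℝ} (ha : |a| ≤ A) : |-a| ≤ A := by rwa [abs_neg]

lemma wK {t t' B : ℝ} (ht : |t| ≤ B) (ht' : |t'| ≤ B) :
    |t + t'| ≤ 2 * B ∧ |(t + t') * (t ^ 2 + t' ^ 2) / 4| ≤ B ^ 3 := by
  have h1 : |t + t'| ≤ 2 * B := (aa ht ht').trans_eq (by ring)
  refine ⟨h1, ?_⟩
  have h2 : |t ^ 2 + t' ^ 2| ≤ 2 * B ^ 2 := by
    have h3 : |t * t| ≤ B * B := am ht ht
    have h4 : |t' * t'| ≤ B * B := am ht' ht'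
    rw [pow_two, pow_two]
    exact (aa h3 h4).trans_eq (by ring)
  rw [show (t + t') * (t ^ 2 + t' ^ 2) / 4 = 1 / 4 * ((t + t') * (t ^ 2 + t' ^ 2)) by ring]
  exact (ak _ (by norm_num) (am h1 h2)).trans_eq (by ring)

/-- The general pair: `D = |d| ^ 2`, `u = δ · d`, `v = δ · J d`. -/
lemma pair {D u v t t' B U V : ℝ} (hD : 1 ≤ D) (hD2 : D ≤ 2) (ht : |t| ≤ B) (ht' : |t'| ≤ B) (hu : |u| ≤ U)
    (hv : |v| ≤ V) (h : 2 * B ^ 3 + 2 * B * U + 2 * V < |t - t'|) :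
    0 < D * (t - t') ^ 2 * (1 + (t + t') ^ 2 / 4) +
      (t - t') * (D * ((t + t') * (t ^ 2 + t' ^ 2) / 4) - u * (t + t') - 2 * v) ∧
    0 < D * (t - t') ^ 2 * (1 + (t + t') ^ 2 / 4) -
      (t - t') * (D * ((t + t') * (t ^ 2 + t' ^ 2) / 4) - u * (t + t') - 2 * v) := by
  apply key hD
  obtain ⟨h1, h2⟩ := wK ht ht'
  have hB : 0 ≤ B := (abs_nonneg _).trans ht
  have e1 : |D * ((t + t') * (t ^ 2 + t' ^ 2) / 4)| ≤ 2 * B ^ 3 :=
    (ak D (by linarith) h2).trans (mul_le_mul_of_nonneg_right hD2 (by positivity))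
  have e2 : |-(u * (t + t'))| ≤ U * (2 * B) := an (am hu h1)
  have e3 : |-(2 * v)| ≤ 2 * V := an (ak 2 (by norm_num) hv)
  have e4 := aa (aa e1 e2) e3
  rw [show D * ((t + t') * (t ^ 2 + t' ^ 2) / 4) - u * (t + t') - 2 * v =
    D * ((t + t') * (t ^ 2 + t' ^ 2) / 4) + -(u * (t + t')) + -(2 * v) by ring]
  refine e4.trans_lt (lt_of_le_of_lt (le_of_eq ?_) h)
  ring

/-- `|δ_x|, |δ_y| ≤ 2 S` for the points of the clusters, and the size of the coordinates. -/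
lemma small {s S : ℝ} (hs : |s| ≤ S) (hS : S ≤ 1 / 100) : |s ^ 2 / 2| ≤ S / 100 ∧ |s| ≤ 1 / 100 := by
  have h0 : 0 ≤ S := (abs_nonneg _).trans hs
  refine ⟨?_, hs.trans hS⟩
  rw [show s ^ 2 / 2 = 1 / 2 * (s * s) by ring]
  refine (ak _ (by norm_num) (am hs hs)).trans ?_
  nlinarith

/-- Two points of the first cluster, one of the second. -/
lemma pair0 {η t t' s B S : ℝ} (hη : 0 < η) (hη1 : η ≤ 1 / 100) (ht : |t| ≤ B) (ht' : |t'| ≤ B) (hB : B ≤ 1 / 100)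
    (hs : |s| ≤ S) (hS : S ≤ 1 / 100) (h : 2 * B ^ 3 + 2 * B * (2 * S) + 2 * (2 * S) < |t - t'|) :
    Acute (P η 0 t) (P η 0 t') (P η 1 s) := by
  obtain ⟨s1, s2⟩ := small hs hS
  obtain ⟨a1, a2⟩ := small ht hB
  obtain ⟨b1, b2⟩ := small ht' hB
  have hS0 : 0 ≤ S := (abs_nonneg _).trans hs
  have hη2 : |η - 1| ≤ 1 := by rw [abs_le]; constructor <;> linarith
  set u : ℝ := -s + s ^ 2 / 2 * (η - 1) with hu
  set v : ℝ := s * (η - 1) + s ^ 2 / 2 with hv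
  have h1 : |u| ≤ 2 * S := (aa (an hs) (am s1 hη2)).trans (by linarith)
  have h2 : |v| ≤ 2 * S := (aa (am hs hη2) s1).trans (by linarith)
  obtain ⟨k1, k2⟩ := pair (D := 1) le_rfl (by norm_num) ht ht' h1 h2 h
  unfold P
  rw [acute_iff]
  refine ⟨?_, ?_, ?_⟩
  · refine lt_of_lt_of_eq (half_pos k1) ?_
    rw [hu, hv]; ring
  · refine lt_of_lt_of_eq (half_pos k2) ?_
    rw [hu, hv]; ring
  · rw [abs_le] at h1 h2 a1 a2 b1 b2
    have x1 : t ^ 2 / 2 - (1 - s + s ^ 2 / 2 * (η - 1)) ≤ -1 / 2 := by linarith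
    have x2 : t' ^ 2 / 2 - (1 - s + s ^ 2 / 2 * (η - 1)) ≤ -1 / 2 := by linarith
    have y1 : |t - (s * (η - 1) + s ^ 2 / 2)| ≤ 1 / 10 := by rw [abs_le]; constructor <;> linarith
    have y2 : |t' - (s * (η - 1) + s ^ 2 / 2)| ≤ 1 / 10 := by rw [abs_le]; constructor <;> linarith
    have y3 := am y1 y2
    rw [abs_le] at y3
    nlinarith [mul_nonneg (sub_nonneg.2 x1) (sub_nonneg.2 x2), y3.1]

/-- Two points of the second cluster, one of the third. -/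
lemma pair1 {η t t' s B S : ℝ} (hη : 0 < η) (hη1 : η ≤ 1 / 100) (ht : |t| ≤ B) (ht' : |t'| ≤ B) (hB : B ≤ 1 / 100)
    (hs : |s| ≤ S) (hS : S ≤ 1 / 100) (h : 2 * B ^ 3 + 2 * B * (4 * S) + 2 * (4 * S) < |t - t'|) :
    Acute (P η 1 t) (P η 1 t') (P η 2 s) := by
  obtain ⟨s1, s2⟩ := small hs hS
  obtain ⟨a1, a2⟩ := small ht hB
  obtain ⟨b1, b2⟩ := small ht' hB
  have hS0 : 0 ≤ S := (abs_nonneg _).trans hs
  have hη2 : |η - 1| ≤ 1 := by rw [abs_le]; constructor <;> linarith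
  have hη3 : |η| ≤ 1 := by rw [abs_le]; constructor <;> linarith
  set x : ℝ := s - η * (s ^ 2 / 2) with hx
  set y : ℝ := -(η * s) - s ^ 2 / 2 with hy
  have x1 : |x| ≤ 2 * S := by
    rw [hx, sub_eq_add_neg]
    exact (aa hs (an (am hη3 s1))).trans (by linarith)
  have y1 : |y| ≤ 2 * S := by
    rw [hy, sub_eq_add_neg]
    exact (aa (an (am hη3 hs)) (an s1)).trans (by linarith)
  have h1 : |x * (η - 1) + y| ≤ 4 * S := (aa (am x1 hη2) y1).trans (by linarith)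
  have h2 : |-x + y * (η - 1)| ≤ 4 * S := (aa (an x1) (am y1 hη2)).trans (by linarith)
  obtain ⟨k1, k2⟩ := pair (D := 1 + (η - 1) ^ 2) (by nlinarith) (by nlinarith) ht ht' h1 h2 h
  unfold P
  rw [acute_iff]
  refine ⟨?_, ?_, ?_⟩
  · refine lt_of_lt_of_eq (half_pos k1) ?_
    rw [hx, hy]; ring
  · refine lt_of_lt_of_eq (half_pos k2) ?_
    rw [hx, hy]; ring
  · have c1 : |t ^ 2 / 2 * (η - 1)| ≤ B / 100 := (am a1 hη2).trans_eq (by ring)
    have c2 : |t' ^ 2 / 2 * (η - 1)| ≤ B / 100 := (am b1 hη2).trans_eq (by ring)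
    have c3 : |t * (η - 1)| ≤ 1 / 100 := (am a2 hη2).trans_eq (by ring)
    have c4 : |t' * (η - 1)| ≤ 1 / 100 := (am b2 hη2).trans_eq (by ring)
    rw [abs_le] at x1 y1 a1 a2 b1 b2 c1 c2 c3 c4
    have z1 : 1 / 2 ≤ 1 - t + t ^ 2 / 2 * (η - 1) - (η + s - η * s ^ 2 / 2) := by
      rw [hx] at x1
      linarith [x1.2, a2.2, c1.1]
    have z2 : 1 / 2 ≤ 1 - t' + t' ^ 2 / 2 * (η - 1) - (η + s - η * s ^ 2 / 2) := by
      rw [hx] at x1
      linarith [x1.2, b2.2, c2.1]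
    have z3 : t * (η - 1) + t ^ 2 / 2 - (1 - η * s - s ^ 2 / 2) ≤ -1 / 2 := by
      rw [hy] at y1
      linarith [y1.1, c3.2, a1.2]
    have z4 : t' * (η - 1) + t' ^ 2 / 2 - (1 - η * s - s ^ 2 / 2) ≤ -1 / 2 := by
      rw [hy] at y1
      linarith [y1.1, c4.2, b1.2]
    nlinarith [mul_nonneg (sub_nonneg.2 z1) (sub_nonneg.2 z2), mul_nonneg (sub_nonneg.2 z3) (sub_nonneg.2 z4)]

/-- Two points of the third cluster, one of the first. -/
lemma pair2 {η t t' s B S : ℝ} (hη : 0 < η) (hη1 : η ≤ 1 / 100) (ht : |t| ≤ B) (ht' : |t'| ≤ B) (hB : B ≤ 1 / 100)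
    (hs : |s| ≤ S) (hS : S ≤ 1 / 100)
    (h : 2 * B ^ 3 + 2 * B * (2 * S) + 2 * (S ^ 2 / 2 + η * S) < |t - t'|) :
    Acute (P η 2 t) (P η 2 t') (P η 0 s) := by
  obtain ⟨s1, s2⟩ := small hs hS
  obtain ⟨a1, a2⟩ := small ht hB
  obtain ⟨b1, b2⟩ := small ht' hB
  have hS0 : 0 ≤ S := (abs_nonneg _).trans hs
  have hη3 : |η| ≤ 1 := by rw [abs_le]; constructor <;> linarith
  have h1 : |-(η * (s ^ 2 / 2)) + -s| ≤ 2 * S := (aa (an (am hη3 s1)) (an hs)).trans (by linarith)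
  have h2 : |s ^ 2 / 2 + -(η * s)| ≤ S ^ 2 / 2 + η * S := by
    refine aa ?_ (an (ak η hη.le hs))
    rw [show s ^ 2 / 2 = 1 / 2 * (s * s) by ring]
    exact (ak _ (by norm_num) (am hs hs)).trans_eq (by ring)
  obtain ⟨k1, k2⟩ := pair (D := 1 + η ^ 2) (by nlinarith) (by nlinarith) ht ht' h1 h2 h
  unfold P
  rw [acute_iff]
  refine ⟨?_, ?_, ?_⟩
  · refine lt_of_lt_of_eq (half_pos k1) ?_
    ring
  · refine lt_of_lt_of_eq (half_pos k2) ?_
    ring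
  · have c1 : |η * (t ^ 2 / 2)| ≤ 1 * (B / 100) := am hη3 a1
    have c2 : |η * (t' ^ 2 / 2)| ≤ 1 * (B / 100) := am hη3 b1
    have c3 : |η * t| ≤ 1 * (1 / 100) := am hη3 a2
    have c4 : |η * t'| ≤ 1 * (1 / 100) := am hη3 b2
    rw [abs_le] at a1 b1 c3 c4 s2
    have z1 : |η + t - η * t ^ 2 / 2 - s ^ 2 / 2| ≤ 1 / 10 := by
      rw [abs_le] at c1 a2 s1 ⊢
      constructor <;> linarith
    have z2 : |η + t' - η * t' ^ 2 / 2 - s ^ 2 / 2| ≤ 1 / 10 := by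
      rw [abs_le] at c2 b2 s1 ⊢
      constructor <;> linarith
    have z3 : 1 / 2 ≤ 1 - η * t - t ^ 2 / 2 - s := by linarith
    have z4 : 1 / 2 ≤ 1 - η * t' - t' ^ 2 / 2 - s := by linarith
    have z5 := am z1 z2
    rw [abs_le] at z5
    nlinarith [mul_nonneg (sub_nonneg.2 z3) (sub_nonneg.2 z4), z5.1]

/-- One point of each cluster. -/
lemma cross {η t s r S : ℝ} (hη : 0 < η) (hη1 : η ≤ 1 / 100) (ht : |t| ≤ S) (hs : |s| ≤ S) (hr : |r| ≤ S)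
    (hS : S ≤ η / 32) : Acute (P η 0 t) (P η 1 s) (P η 2 r) := by
  have hS1 : S ≤ 1 / 100 := by linarith
  obtain ⟨t1, t2⟩ := small ht hS1
  obtain ⟨s1, s2⟩ := small hs hS1
  obtain ⟨r1, r2⟩ := small hr hS1
  have hη2 : |η - 1| ≤ 1 := by rw [abs_le]; constructor <;> linarith
  have hη3 : |η| ≤ 1 := by rw [abs_le]; constructor <;> linarith
  have c1 : |s ^ 2 / 2 * (η - 1)| ≤ S / 100 * 1 := am s1 hη2
  have c2 : |s * (η - 1)| ≤ S * 1 := am hs hη2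
  have c3 : |η * (r ^ 2 / 2)| ≤ 1 * (S / 100) := am hη3 r1
  have c4 : |η * r| ≤ 1 * S := am hη3 hr
  rw [abs_le] at t1 t2 s1 s2 r1 r2 c1 c2 c3 c4 ht hs hr
  unfold P
  rw [acute_iff]
  refine ⟨?_, ?_, ?_⟩
  · have z1 : 1 / 2 ≤ 1 - s + s ^ 2 / 2 * (η - 1) - t ^ 2 / 2 := by linarith
    have z2 : η / 2 ≤ η + r - η * r ^ 2 / 2 - t ^ 2 / 2 := by linarith
    have z3 : |s * (η - 1) + s ^ 2 / 2 - t| ≤ 3 * S := by rw [abs_le]; constructor <;> linarith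
    have z4 : |1 - η * r - r ^ 2 / 2 - t| ≤ 2 := by rw [abs_le]; constructor <;> linarith
    have z5 := am z3 z4
    rw [abs_le] at z5
    nlinarith [mul_nonneg (sub_nonneg.2 z1) (sub_nonneg.2 z2), z5.1]
  · have z1 : t ^ 2 / 2 - (1 - s + s ^ 2 / 2 * (η - 1)) ≤ -1 / 2 := by linarith
    have z2 : η + r - η * r ^ 2 / 2 - (1 - s + s ^ 2 / 2 * (η - 1)) ≤ -1 / 2 := by linarith
    have z3 : |t - (s * (η - 1) + s ^ 2 / 2)| ≤ 1 / 10 := by rw [abs_le]; constructor <;> linarith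
    have z4 : |1 - η * r - r ^ 2 / 2 - (s * (η - 1) + s ^ 2 / 2)| ≤ 2 := by rw [abs_le]; constructor <;> linarith
    have z5 := am z3 z4
    rw [abs_le] at z5
    nlinarith [mul_nonneg (sub_nonneg.2 z1) (sub_nonneg.2 z2), z5.1]
  · have z1 : t - (1 - η * r - r ^ 2 / 2) ≤ -1 / 2 := by linarith
    have z2 : s * (η - 1) + s ^ 2 / 2 - (1 - η * r - r ^ 2 / 2) ≤ -1 / 2 := by linarith
    have z3 : |t ^ 2 / 2 - (η + r - η * r ^ 2 / 2)| ≤ 1 / 10 := by rw [abs_le]; constructor <;> linarith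
    have z4 : |1 - s + s ^ 2 / 2 * (η - 1) - (η + r - η * r ^ 2 / 2)| ≤ 2 := by
      rw [abs_le]; constructor <;> linarith
    have z5 := am z3 z4
    rw [abs_le] at z5
    nlinarith [mul_nonneg (sub_nonneg.2 z1) (sub_nonneg.2 z2), z5.1]

/-- The scales of the three clusters. -/
noncomputable def step (M ρ : ℝ) : Fin 3 → ℝ
  | 0 => 256 * M ^ 2 * ρ
  | 1 => 16 * M * ρ
  | 2 => ρ

/-- The points: `m` points in each of the three clusters. -/
noncomputable def Q (m : ℕ) (x : Fin 3 × Fin m) : EuclideanSpace ℝ (Fin 2) :=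
  P (1 / (4096 * (m : ℝ) ^ 3)) x.1 (step m (1 / (2 ^ 25 * (m : ℝ) ^ 6)) x.1 * (x.2 : ℕ))

lemma gap {c : ℝ} (hc : 0 < c) {m : ℕ} {i j : Fin m} (h : i ≠ j) : c ≤ |c * ((i : ℕ) : ℝ) - c * ((j : ℕ) : ℝ)| := by
  rw [← mul_sub, abs_mul, abs_of_pos hc]
  have h1 : (1 : ℝ) ≤ |((i : ℕ) : ℝ) - ((j : ℕ) : ℝ)| := by
    have h2 : ((i : ℕ) : ℤ) ≠ ((j : ℕ) : ℤ) := by
      intro h3
      exact h (Fin.ext (by exact_mod_cast h3))
    have h3 : (1 : ℤ) ≤ |((i : ℕ) : ℤ) - ((j : ℕ) : ℤ)| := Int.one_le_abs (sub_ne_zero.2 h2)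
    exact_mod_cast h3
  nlinarith

lemma bound {c : ℝ} (hc : 0 < c) {m : ℕ} (i : Fin m) : |c * ((i : ℕ) : ℝ)| ≤ (m : ℝ) * c := by
  have h : ((i : ℕ) : ℝ) ≤ m := by exact_mod_cast i.2.le
  rw [abs_of_nonneg (by positivity)]
  nlinarith

lemma Q_acute (m : ℕ) (hm : 1 ≤ m) :
    (∀ i j k : Fin m, i ≠ j → Acute (Q m (0, i)) (Q m (0, j)) (Q m (1, k))) ∧
    (∀ i j k : Fin m, i ≠ j → Acute (Q m (1, i)) (Q m (1, j)) (Q m (2, k))) ∧
    (∀ i j k : Fin m, i ≠ j → Acute (Q m (2, i)) (Q m (2, j)) (Q m (0, k))) ∧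
    (∀ i j k : Fin m, Acute (Q m (0, i)) (Q m (1, j)) (Q m (2, k))) := by
  have hM : (1 : ℝ) ≤ m := by exact_mod_cast hm
  set M : ℝ := (m : ℝ) with hMdef
  have hM0 : 0 < M := by linarith
  set ρ : ℝ := 1 / (2 ^ 25 * M ^ 6) with hρ
  set η : ℝ := 1 / (4096 * M ^ 3) with hη
  have hρ0 : 0 < ρ := by positivity
  have hη0 : 0 < η := by positivity
  have e6 : M ^ 6 * ρ = 1 / 2 ^ 25 := by
    rw [hρ]
    field_simp
  have eη : η = 8192 * (M ^ 3 * ρ) := by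
    rw [hη, hρ]
    field_simp
    norm_num
  have hp : ∀ a : ℕ, a ≤ 6 → M ^ a * ρ ≤ 1 / 2 ^ 25 := by
    intro a ha
    rw [← e6]
    exact mul_le_mul_of_nonneg_right (pow_le_pow_right₀ hM ha) hρ0.le
  have hp0 := hp 0 (by norm_num)
  have hp1 := hp 1 (by norm_num)
  have hp2 := hp 2 (by norm_num)
  have hp3 := hp 3 (by norm_num)
  have hp4 := hp 4 (by norm_num)
  rw [pow_zero, one_mul] at hp0
  rw [pow_one] at hp1
  have hη1 : η ≤ 1 / 100 := by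
    rw [eη]
    refine (mul_le_mul_of_nonneg_left hp3 (by norm_num)).trans ?_
    norm_num
  -- bounds of the three clusters
  have b0 : ∀ i : Fin m, |step M ρ 0 * ((i : ℕ) : ℝ)| ≤ 256 * (M ^ 3 * ρ) := fun i =>
    (bound (by unfold step; positivity) i).trans_eq (by unfold step; ring)
  have b1 : ∀ i : Fin m, |step M ρ 1 * ((i : ℕ) : ℝ)| ≤ 16 * (M ^ 2 * ρ) := fun i =>
    (bound (by unfold step; positivity) i).trans_eq (by unfold step; ring)
  have b2 : ∀ i : Fin m, |step M ρ 2 * ((i : ℕ) : ℝ)| ≤ M * ρ := fun i =>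
    (bound (by unfold step; positivity) i).trans_eq (by unfold step; ring)
  have c0 : 256 * (M ^ 3 * ρ) ≤ 1 / 100 := by
    refine (mul_le_mul_of_nonneg_left hp3 (by norm_num)).trans ?_
    norm_num
  have c1 : 16 * (M ^ 2 * ρ) ≤ 1 / 100 := by
    refine (mul_le_mul_of_nonneg_left hp2 (by norm_num)).trans ?_
    norm_num
  have c2 : M * ρ ≤ 1 / 100 := hp1.trans (by norm_num)
  have q1 : 0 < M * ρ := by positivity
  have q2 : 0 < M ^ 2 * ρ := by positivity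
  have q3 : 0 < M ^ 3 * ρ := by positivity
  refine ⟨fun i j k hij => ?_, fun i j k hij => ?_, fun i j k hij => ?_, fun i j k => ?_⟩
  · refine pair0 hη0 hη1 (b0 i) (b0 j) c0 (b1 k) c1 (lt_of_lt_of_le ?_ (gap (by unfold step; positivity) hij))
    unfold step
    have h1 : 2 * (256 * (M ^ 3 * ρ)) ^ 3 + 2 * (256 * (M ^ 3 * ρ)) * (2 * (16 * (M ^ 2 * ρ))) +
        2 * (2 * (16 * (M ^ 2 * ρ))) =
        (2 ^ 25 * (M ^ 6 * ρ) * (M * ρ) + 2 ^ 14 * (M ^ 3 * ρ) + 64) * (M ^ 2 * ρ) := by ring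
    have h2 : 256 * M ^ 2 * ρ = 256 * (M ^ 2 * ρ) := by ring
    rw [h1, h2]
    refine mul_lt_mul_of_pos_right ?_ q2
    rw [e6]
    have h3 : (2 : ℝ) ^ 14 * (M ^ 3 * ρ) ≤ 2 ^ 14 * (1 / 2 ^ 25) := mul_le_mul_of_nonneg_left hp3 (by norm_num)
    norm_num at h3 hp1 ⊢
    linarith
  · refine pair1 hη0 hη1 (b1 i) (b1 j) c1 (b2 k) c2 (lt_of_lt_of_le ?_ (gap (by unfold step; positivity) hij))
    unfold step
    have h1 : 2 * (16 * (M ^ 2 * ρ)) ^ 3 + 2 * (16 * (M ^ 2 * ρ)) * (4 * (M * ρ)) + 2 * (4 * (M * ρ)) =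
        (2 ^ 13 * (M ^ 3 * ρ) * (M ^ 2 * ρ) + 128 * (M ^ 2 * ρ) + 8) * (M * ρ) := by ring
    have h2 : 16 * M * ρ = 16 * (M * ρ) := by ring
    rw [h1, h2]
    refine mul_lt_mul_of_pos_right ?_ q1
    have h3 : (2 : ℝ) ^ 13 * (M ^ 3 * ρ) * (M ^ 2 * ρ) ≤ 2 ^ 13 * (1 / 2 ^ 25) * (1 / 2 ^ 25) := by
      gcongr
    norm_num at h3 hp2 ⊢
    linarith
  · refine pair2 hη0 hη1 (b2 i) (b2 j) c2 (b0 k) c0 (lt_of_lt_of_le ?_ (gap (by unfold step; positivity) hij))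
    show 2 * (M * ρ) ^ 3 + 2 * (M * ρ) * (2 * (256 * (M ^ 3 * ρ))) +
        2 * ((256 * (M ^ 3 * ρ)) ^ 2 / 2 + η * (256 * (M ^ 3 * ρ))) < ρ
    rw [eη]
    have h1 : 2 * (M * ρ) ^ 3 + 2 * (M * ρ) * (2 * (256 * (M ^ 3 * ρ))) +
        2 * ((256 * (M ^ 3 * ρ)) ^ 2 / 2 + 8192 * (M ^ 3 * ρ) * (256 * (M ^ 3 * ρ))) =
        (2 * (M ^ 3 * ρ) * ρ + 1024 * (M ^ 4 * ρ) + (2 ^ 16 + 2 ^ 22) * (M ^ 6 * ρ)) * ρ := by ring
    rw [h1, e6]
    have h3 : 2 * (M ^ 3 * ρ) * ρ ≤ 2 * (1 / 2 ^ 25) * (1 / 2 ^ 25) := by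
      gcongr
    have h4 : 2 * (M ^ 3 * ρ) * ρ + 1024 * (M ^ 4 * ρ) + (2 ^ 16 + 2 ^ 22) * (1 / 2 ^ 25) < 1 := by
      norm_num at h3 hp4 ⊢
      linarith
    nlinarith
  · have h1 : 256 * (M ^ 3 * ρ) = η / 32 := by rw [eη]; ring
    have h2 : 16 * (M ^ 2 * ρ) ≤ 256 * (M ^ 3 * ρ) := by
      have : M ^ 2 * ρ ≤ M ^ 3 * ρ := mul_le_mul_of_nonneg_right (pow_le_pow_right₀ hM (by norm_num)) hρ0.le
      linarith
    have h3 : M * ρ ≤ 256 * (M ^ 3 * ρ) := by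
      have : M ^ 1 * ρ ≤ M ^ 3 * ρ := mul_le_mul_of_nonneg_right (pow_le_pow_right₀ hM (by norm_num)) hρ0.le
      rw [pow_one] at this
      linarith
    exact cross hη0 hη1 (b0 i) ((b1 j).trans h2) ((b2 k).trans h3) h1.le

lemma acute_ne {x y z : EuclideanSpace ℝ (Fin 2)} (h : Acute x y z) : x ≠ y ∧ x ≠ z ∧ y ≠ z := by
  obtain ⟨h1, h2, h3⟩ := h
  refine ⟨?_, ?_, ?_⟩ <;> rintro rfl <;> simp at h1 h2 h3

lemma Q_inj (m : ℕ) (hm : 1 ≤ m) : Function.Injective (Q m) := by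
  obtain ⟨h1, h2, h3, h4⟩ := Q_acute m hm
  have k : Fin m := ⟨0, hm⟩
  rintro ⟨a, i⟩ ⟨b, j⟩ h
  fin_cases a <;> fin_cases b <;> simp only [Fin.zero_eta, Fin.mk_one, Fin.reduceFinMk] at h ⊢
  · by_contra hne
    exact (acute_ne (h1 i j k fun e => hne (by rw [e]))).1 h
  · exact absurd h (acute_ne (h4 i j k)).1
  · exact absurd h (acute_ne (h4 i k j)).2.1
  · exact absurd h.symm (acute_ne (h4 j i k)).1
  · by_contra hne
    exact (acute_ne (h2 i j k fun e => hne (by rw [e]))).1 h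
  · exact absurd h (acute_ne (h4 k i j)).2.2
  · exact absurd h.symm (acute_ne (h4 j k i)).2.1
  · exact absurd h.symm (acute_ne (h4 k j i)).2.2
  · by_contra hne
    exact (acute_ne (h3 i j k fun e => hne (by rw [e]))).1 h

variable {m : ℕ}

/-- three points, one of each cluster -/
def f1 (x : Fin m × Fin m × Fin m) : Finset (Fin 3 × Fin m) := {(0, x.1), (1, x.2.1), (2, x.2.2)}

/-- two points of the cluster `a`, one of the cluster `a + 1` -/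
def f2 (x : Fin 3 × (Σ _ : Fin m, Fin m) × Fin m) : Finset (Fin 3 × Fin m) :=
  {(x.1, x.2.1.1), (x.1, x.2.1.2), (x.1 + 1, x.2.2)}

/-- the index set of `f2` -/
def D2 (m : ℕ) : Finset (Fin 3 × (Σ _ : Fin m, Fin m) × Fin m) :=
  univ ×ˢ ((univ : Finset (Fin m)).sigma fun j => Iio j) ×ˢ univ

lemma card_D2 : 2 * (D2 m).card = 3 * (m * (m - 1)) * m := by
  unfold D2
  rw [card_product, card_product, card_sigma, card_univ, card_univ, Fintype.card_fin, Fintype.card_fin]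
  have h : (∑ a : Fin m, #(Iio a)) * 2 = m * (m - 1) := by
    simp only [Fin.card_Iio]
    rw [Fin.sum_univ_eq_sum_range (fun i => i) m, Finset.sum_range_id_mul_two]
  calc 2 * (3 * ((∑ a : Fin m, #(Iio a)) * m)) = 3 * ((∑ a : Fin m, #(Iio a)) * 2) * m := by ring
    _ = _ := by rw [h]

lemma f1_inj : Function.Injective (f1 (m := m)) := by
  rintro ⟨i, j, k⟩ ⟨i', j', k'⟩ h
  unfold f1 at h
  simp only at h
  have h1 : ((0 : Fin 3), i) ∈ ({(0, i'), (1, j'), (2, k')} : Finset (Fin 3 × Fin m)) := by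
    rw [← h]; simp
  have h2 : ((1 : Fin 3), j) ∈ ({(0, i'), (1, j'), (2, k')} : Finset (Fin 3 × Fin m)) := by
    rw [← h]; simp
  have h3 : ((2 : Fin 3), k) ∈ ({(0, i'), (1, j'), (2, k')} : Finset (Fin 3 × Fin m)) := by
    rw [← h]; simp
  simp at h1 h2 h3
  rw [h1, h2, h3]

lemma a_ne (a : Fin 3) : a ≠ a + 1 := by
  fin_cases a <;> decide

lemma f2_inj : Set.InjOn (f2 (m := m)) (D2 m) := by
  rintro ⟨a, ⟨j, i⟩, k⟩ hx ⟨a', ⟨j', i'⟩, k'⟩ hx' h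
  simp only [D2, coe_product, Set.mem_prod, mem_coe, mem_sigma, mem_univ, mem_Iio, true_and, and_true,
    Finset.coe_univ, Set.mem_univ] at hx hx'
  unfold f2 at h
  simp only at h
  have h1 : (a, j) ∈ ({(a', j'), (a', i'), (a' + 1, k')} : Finset (Fin 3 × Fin m)) := by
    rw [← h]; simp
  have h2 : (a, i) ∈ ({(a', j'), (a', i'), (a' + 1, k')} : Finset (Fin 3 × Fin m)) := by
    rw [← h]; simp
  have h3 : (a + 1, k) ∈ ({(a', j'), (a', i'), (a' + 1, k')} : Finset (Fin 3 × Fin m)) := by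
    rw [← h]; simp
  simp only [mem_insert, mem_singleton, Prod.mk.injEq] at h1 h2 h3
  have haa : a = a' := by
    rcases h1 with h1 | h1 | h1
    · exact h1.1
    · exact h1.1
    · rcases h2 with h2 | h2 | h2
      · exact h2.1
      · exact h2.1
      · exact absurd (h1.2.trans h2.2.symm) (ne_of_gt hx)
  subst haa
  have hne := a_ne a
  have h1' : j = j' ∨ j = i' := by
    rcases h1 with h1 | h1 | h1
    · exact Or.inl h1.2
    · exact Or.inr h1.2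
    · exact absurd h1.1 hne
  have h2' : i = j' ∨ i = i' := by
    rcases h2 with h2 | h2 | h2
    · exact Or.inl h2.2
    · exact Or.inr h2.2
    · exact absurd h2.1 hne
  have h3' : k = k' := by
    rcases h3 with h3 | h3 | h3
    · exact absurd h3.1 hne.symm
    · exact absurd h3.1 hne.symm
    · exact h3.2
  have h4 : j = j' ∧ i = i' := by
    rcases h1' with rfl | rfl <;> rcases h2' with rfl | rfl
    · exact absurd hx (lt_irrefl _)
    · exact ⟨rfl, rfl⟩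
    · exact absurd hx (not_lt.2 hx'.le)
    · exact absurd hx (lt_irrefl _)
  rw [h4.1, h4.2, h3']

lemma f1_ne_f2 (x : Fin m × Fin m × Fin m) (y : Fin 3 × (Σ _ : Fin m, Fin m) × Fin m) : f1 x ≠ f2 y := by
  obtain ⟨i, j, k⟩ := x
  obtain ⟨a, ⟨j', i'⟩, k'⟩ := y
  intro h
  unfold f1 f2 at h
  simp only at h
  have h0 : ((0 : Fin 3), i) ∈ ({(a, j'), (a, i'), (a + 1, k')} : Finset (Fin 3 × Fin m)) := by
    rw [← h]; simp
  have h1 : ((1 : Fin 3), j) ∈ ({(a, j'), (a, i'), (a + 1, k')} : Finset (Fin 3 × Fin m)) := by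
    rw [← h]; simp
  have h2 : ((2 : Fin 3), k) ∈ ({(a, j'), (a, i'), (a + 1, k')} : Finset (Fin 3 × Fin m)) := by
    rw [← h]; simp
  simp only [mem_insert, mem_singleton, Prod.mk.injEq] at h0 h1 h2
  have g0 : 0 = a ∨ 0 = a + 1 := by tauto
  have g1 : 1 = a ∨ 1 = a + 1 := by tauto
  have g2 : 2 = a ∨ 2 = a + 1 := by tauto
  clear h h0 h1 h2
  revert g0 g1 g2
  fin_cases a <;> decide

end Sharp

open Sharp in
/-- **Sharpness.** For every `m ≥ 1` there are `3 m` points in the plane that span at least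
`m ^ 3 + 3 m (m choose 2) = (5 m ^ 3 - 3 m ^ 2) / 2` acute triangles. -/
theorem sharp (m : ℕ) (hm : 1 ≤ m) : ∃ p : Fin (3 * m) → EuclideanSpace ℝ (Fin 2), Function.Injective p ∧
    5 * m ^ 3 - 3 * m ^ 2 ≤
      2 * {t : Finset (Fin (3 * m)) | ∃ i j k, t = {i, j, k} ∧ Acute (p i) (p j) (p k)}.ncard := by
  classical
  obtain ⟨h1, h2, h3, h4⟩ := Q_acute m hm
  set e : Fin 3 × Fin m ≃ Fin (3 * m) := finProdFinEquiv with he
  refine ⟨fun i => Q m (e.symm i), fun i j h => e.symm.injective (Q_inj m hm h), ?_⟩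
  set A : Finset (Finset (Fin 3 × Fin m)) := (univ.image f1) ∪ ((D2 m).image f2) with hA
  have hcard : 2 * A.card = 2 * m ^ 3 + 3 * (m * (m - 1)) * m := by
    rw [hA, card_union_of_disjoint, card_image_of_injective _ f1_inj, card_image_of_injOn f2_inj, mul_add, card_D2]
    · simp only [card_univ, Fintype.card_prod, Fintype.card_fin]
      ring
    · rw [disjoint_left]
      intro t ht ht'
      obtain ⟨x, -, rfl⟩ := mem_image.1 ht
      obtain ⟨y, -, hy⟩ := mem_image.1 ht'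
      exact f1_ne_f2 x y hy.symm
  have hsub : ((A.image fun t => t.map e.toEmbedding : Finset (Finset (Fin (3 * m)))) : Set (Finset (Fin (3 * m)))) ⊆
      {t : Finset (Fin (3 * m)) | ∃ i j k, t = {i, j, k} ∧
        Acute (Q m (e.symm i)) (Q m (e.symm j)) (Q m (e.symm k))} := by
    intro t ht
    simp only [coe_image, Set.mem_image, mem_coe] at ht
    obtain ⟨s, hs, rfl⟩ := ht
    have key : ∀ x y z, s = {x, y, z} → Acute (Q m x) (Q m y) (Q m z) →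
        s.map e.toEmbedding ∈ {t : Finset (Fin (3 * m)) | ∃ i j k, t = {i, j, k} ∧
          Acute (Q m (e.symm i)) (Q m (e.symm j)) (Q m (e.symm k))} := by
      rintro x y z rfl hxyz
      refine ⟨e x, e y, e z, ?_, ?_⟩
      · simp
      · simpa using hxyz
    rw [hA, mem_union] at hs
    rcases hs with hs | hs
    · obtain ⟨⟨i, j, k⟩, -, rfl⟩ := mem_image.1 hs
      exact key _ _ _ rfl (h4 i j k)
    · obtain ⟨⟨a, ⟨j, i⟩, k⟩, hx, rfl⟩ := mem_image.1 hs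
      simp only [D2, mem_product, mem_sigma, mem_univ, mem_Iio, true_and, and_true] at hx
      refine key _ _ _ rfl ?_
      have hne : j ≠ i := (ne_of_gt hx)
      fin_cases a
      · exact h1 j i k hne
      · exact h2 j i k hne
      · exact h3 j i k hne
  have hle := Set.ncard_le_ncard hsub (Set.toFinite _)
  rw [Set.ncard_coe_finset, card_image_of_injective _ (Finset.map_injective _)] at hle
  have h5 : 5 * m ^ 3 - 3 * m ^ 2 = 2 * m ^ 3 + 3 * (m * (m - 1)) * m := by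
    obtain ⟨n, rfl⟩ : ∃ n, m = n + 1 := ⟨m - 1, by omega⟩
    simp only [Nat.add_sub_cancel]
    rw [Nat.sub_eq_iff_eq_add]
    · ring
    · nlinarith [Nat.zero_le n]
  rw [h5, ← hcard]
  exact Nat.mul_le_mul_left 2 hle

end Pool.Agent.T2H24.AC
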